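import Pool.Agent.Q99.SML.Padic

/-!
# Interpolation series `∑ C(t,j) x^j b_j` over a commutative ring

If `b` is annihilated by a monic polynomial of degree `M`, then the values of the series at any `M`
points `t_k` generate `D' * (all values)` with `D' ≡ det C(t_k, i)` modulo `x`.
-/

set_option autoImplicit false

open Polynomial Finset

namespace Q99.SML8

open Q99.SML

variable {K : Type*} [CommRing K]

/-- the interpolation series -/
def ser (x : K) (b : ℕ → K) (t : ℕ) : K :=
  ∑ j ∈ Finset.range (t + 1), (t.choose j : K) * (x ^ j * b j)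

/-- all terms of the series are combinations of the first ones -/
theorem exists_kappa (x : K) (R : K[X]) (hR : R.Monic) (b : ℕ → K) (hb : Ann R b) (j : ℕ) :
    ∃ κ : Fin R.natDegree → K, (∀ i : Fin R.natDegree, x ∣ κ i - (if j = i then 1 else 0)) ∧
      x ^ j * b j = ∑ i : Fin R.natDegree, κ i * (x ^ (i : ℕ) * b i) := by
  classical
  by_cases hj : j < R.natDegree
  · refine ⟨fun i => if j = i then 1 else 0, fun i => by rw [sub_self]; exact dvd_zero _, ?_⟩
    rw [Finset.sum_eq_single (⟨j, hj⟩ : Fin R.natDegree)]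
    · simp
    · intro i _ hi
      have : j ≠ (i : ℕ) := fun h => hi (Fin.ext h.symm)
      simp [this]
    · intro h; exact absurd (Finset.mem_univ _) h
  · rw [not_lt] at hj
    refine ⟨fun i => x ^ (j - i) * (X ^ j %ₘ R).coeff i, fun i => ?_, ?_⟩
    · have h1 : j ≠ (i : ℕ) := by have := i.2; omega
      rw [if_neg h1, sub_zero]
      refine Dvd.dvd.mul_right (dvd_pow_self x ?_) _
      have := i.2
      omega
    · have h1 : b j = ∑ i : Fin R.natDegree, (X ^ j %ₘ R).coeff i * b i := by
        rw [← phi_X_pow b j]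
        conv_lhs => rw [← Polynomial.modByMonic_add_div (X ^ j) R]
        rw [map_add, hb, add_zero]
        rcases Nat.eq_zero_or_pos R.natDegree with h0 | h0
        · have h2 : R = 1 := Polynomial.eq_one_of_monic_natDegree_zero hR h0
          have h3 : (X ^ j %ₘ R) = 0 := by rw [h2, Polynomial.modByMonic_one]
          rw [h3, map_zero]
          symm
          refine Finset.sum_eq_zero fun i _ => ?_
          rw [Polynomial.coeff_zero, zero_mul]
        · have h2 : (X ^ j %ₘ R).natDegree < R.natDegree := by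
            by_cases hnt : Nontrivial K
            · exact Polynomial.natDegree_modByMonic_lt _ hR (by
                rintro rfl
                rw [Polynomial.natDegree_one] at h0
                exact absurd h0 (lt_irrefl _))
            · rw [not_nontrivial_iff_subsingleton] at hnt
              have h3 : (X ^ j %ₘ R) = 0 := Subsingleton.elim _ _
              rw [h3, Polynomial.natDegree_zero]
              exact h0
          conv_lhs => rw [(X ^ j %ₘ R).as_sum_range' R.natDegree h2]
          rw [map_sum, ← Fin.sum_univ_eq_sum_range]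
          refine Finset.sum_congr rfl fun i _ => ?_
          rw [phi_monomial]
      conv_lhs => rw [h1]
      rw [Finset.mul_sum]
      refine Finset.sum_congr rfl fun i _ => ?_
      have h2 : x ^ j = x ^ (j - i) * x ^ (i : ℕ) := by
        rw [← pow_add]
        congr 1
        have := i.2
        omega
      rw [h2]
      ring

theorem exists_coef (x : K) (R : K[X]) (hR : R.Monic) (b : ℕ → K) (hb : Ann R b) (t : ℕ) :
    ∃ c : Fin R.natDegree → K, (∀ i : Fin R.natDegree, x ∣ c i - ((t.choose i : ℕ) : K)) ∧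
      ser x b t = ∑ i : Fin R.natDegree, c i * (x ^ (i : ℕ) * b i) := by
  classical
  choose κ h1 h2 using exists_kappa x R hR b hb
  refine ⟨fun i => ∑ j ∈ Finset.range (t + 1), (t.choose j : K) * κ j i, fun i => ?_, ?_⟩
  · have h3 : ((t.choose i : ℕ) : K) =
        ∑ j ∈ Finset.range (t + 1), (t.choose j : K) * (if j = i then 1 else 0) := by
      by_cases hi : (i : ℕ) ≤ t
      · rw [Finset.sum_eq_single (i : ℕ)]
        · rw [if_pos rfl, mul_one]
        · intro j _ hj
          rw [if_neg hj, mul_zero]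
        · intro h
          exact absurd (Finset.mem_range.2 (by omega)) h
      · rw [Nat.choose_eq_zero_of_lt (by omega), Nat.cast_zero]
        symm
        refine Finset.sum_eq_zero fun j hj => ?_
        rw [Finset.mem_range] at hj
        rw [if_neg (by omega), mul_zero]
    rw [h3, ← Finset.sum_sub_distrib]
    refine Finset.dvd_sum fun j _ => ?_
    rw [← mul_sub]
    exact Dvd.dvd.mul_left (h1 j i) _
  · unfold ser
    have h3 : ∀ j, (t.choose j : K) * (x ^ j * b j) =
        ∑ i : Fin R.natDegree, (t.choose j : K) * κ j i * (x ^ (i : ℕ) * b i) := by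
      intro j
      conv_lhs => rw [h2 j]
      rw [Finset.mul_sum]
      refine Finset.sum_congr rfl fun i _ => ?_
      ring
    rw [Finset.sum_congr rfl fun j _ => h3 j, Finset.sum_comm]
    refine Finset.sum_congr rfl fun i _ => ?_
    rw [Finset.sum_mul]

/-- the determinant of the binomial coefficients -/
def binDet {M : ℕ} (t : Fin M → ℕ) : ℤ := (Matrix.of fun k i : Fin M => ((t k).choose i : ℤ)).det

theorem mem_span (x : K) (R : K[X]) (hR : R.Monic) (b : ℕ → K) (hb : Ann R b)
    (t : Fin R.natDegree → ℕ) : ∃ D : K, x ∣ D - (binDet t : ℤ) ∧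
      ∀ s : ℕ, D * ser x b s ∈ Ideal.span (Set.range fun k => ser x b (t k)) := by
  classical
  choose c h1 h2 using exists_coef x R hR b hb
  let Cm : Matrix (Fin R.natDegree) (Fin R.natDegree) K := Matrix.of fun k i => c (t k) i
  let y : Fin R.natDegree → K := fun i => x ^ (i : ℕ) * b i
  have hser : ∀ s, ser x b s = ∑ i, c s i * y i := h2
  have hy : ∀ i, Cm.det * y i ∈ Ideal.span (Set.range fun k => ser x b (t k)) := by
    intro i
    have h3 : Cm.adjugate.mulVec (Cm.mulVec y) = Cm.det • y := by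
      rw [Matrix.mulVec_mulVec, Matrix.adjugate_mul, Matrix.smul_mulVec, Matrix.one_mulVec]
    have h4 := congrFun h3 i
    rw [Pi.smul_apply, smul_eq_mul] at h4
    rw [← h4]
    have h6 : Cm.adjugate.mulVec (Cm.mulVec y) i = ∑ k, Cm.adjugate i k * ser x b (t k) := by
      show ∑ k, Cm.adjugate i k * Cm.mulVec y k = _
      refine Finset.sum_congr rfl fun k _ => ?_
      rw [hser (t k)]
      rfl
    rw [h6]
    refine Ideal.sum_mem _ fun k _ => Ideal.mul_mem_left _ _ ?_
    exact Ideal.subset_span ⟨k, rfl⟩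
  refine ⟨Cm.det, ?_, fun s => ?_⟩
  · rw [← Ideal.mem_span_singleton, ← Ideal.Quotient.eq, RingHom.map_det, map_intCast]
    unfold binDet
    rw [Int.cast_det]
    congr 1
    ext1 k i
    rw [RingHom.mapMatrix_apply, Matrix.map_apply, Matrix.map_apply, Matrix.of_apply]
    show Ideal.Quotient.mk (Ideal.span {x}) (c (t k) i) = _
    have h3 : Ideal.Quotient.mk (Ideal.span {x}) (c (t k) i) =
        Ideal.Quotient.mk (Ideal.span {x}) (((t k).choose i : ℕ) : K) := by
      rw [Ideal.Quotient.eq, Ideal.mem_span_singleton]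
      exact h1 (t k) i
    rw [h3, map_natCast]
    push_cast
    rfl
  · rw [hser, Finset.mul_sum]
    refine Ideal.sum_mem _ fun i _ => ?_
    have h3 : Cm.det * (c s i * y i) = c s i * (Cm.det * y i) := by ring
    rw [h3]
    exact Ideal.mul_mem_left _ _ (hy i)

/-! ### the determinant of binomial coefficients -/

theorem binDet_mul {M : ℕ} (t : Fin M → ℕ) :
    (∏ j : Fin M, ((j : ℕ).factorial : ℤ)) * binDet t =
      ∏ i : Fin M, ∏ j ∈ Finset.Ioi i, ((t j : ℤ) - t i) := by
  rw [← Matrix.det_vandermonde]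
  have h := Matrix.det_eval_matrixOfPolynomials_eq_det_vandermonde (fun i => (t i : ℤ))
    (fun i : Fin M => descPochhammer ℤ (i : ℕ)) (fun i => by
      rw [descPochhammer_natDegree]) (fun i => monic_descPochhammer ℤ _)
  rw [h]
  have h2 : (Matrix.of fun i j : Fin M => (descPochhammer ℤ (j : ℕ)).eval (t i : ℤ)) =
      Matrix.of fun i j : Fin M => ((j : ℕ).factorial : ℤ) * ((Matrix.of fun k i : Fin M =>
        ((t k).choose i : ℤ)) i j) := by
    ext1 i j
    rw [Matrix.of_apply, Matrix.of_apply, Matrix.of_apply, descPochhammer_eval_eq_descFactorial,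
      Nat.descFactorial_eq_factorial_mul_choose]
    push_cast
    rfl
  rw [h2, Matrix.det_mul_row]
  rfl

theorem not_dvd_prod {ι : Type*} (c : ℤ) (h1 : ¬ c ∣ 1) (h2 : ∀ a b : ℤ, c ∣ a * b → c ∣ a ∨ c ∣ b)
    (s : Finset ι) (f : ι → ℤ) (hf : ∀ i ∈ s, ¬ c ∣ f i) : ¬ c ∣ ∏ i ∈ s, f i := by
  classical
  induction s using Finset.induction_on with
  | empty => rwa [Finset.prod_empty]
  | insert a s ha ih =>
    rw [Finset.prod_insert ha]
    intro h
    rcases h2 _ _ h with h | h
    · exact hf a (Finset.mem_insert_self _ _) h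
    · exact ih (fun i hi => hf i (Finset.mem_insert_of_mem hi)) h

theorem not_dvd_binDet {M : ℕ} (t : Fin M → ℕ) (c : ℤ) (h1 : ¬ c ∣ 1)
    (h2 : ∀ a b : ℤ, c ∣ a * b → c ∣ a ∨ c ∣ b)
    (ht : ∀ i j, i ≠ j → ¬ c ∣ (t j : ℤ) - t i) : ¬ c ∣ binDet t := by
  intro h
  have h3 : c ∣ ∏ i : Fin M, ∏ j ∈ Finset.Ioi i, ((t j : ℤ) - t i) := by
    rw [← binDet_mul]
    exact Dvd.dvd.mul_left h _
  refine not_dvd_prod c h1 h2 _ _ (fun i _ => ?_) h3
  refine not_dvd_prod c h1 h2 _ _ (fun j hj => ?_)
  exact ht i j (Finset.mem_Ioi.1 hj).ne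

/-! ### sequences -/

/-- `u` is given on every half line by an interpolation series annihilated by `R` -/
def IRec (x : K) (R : K[X]) (u : ℤ → K) : Prop :=
  ∀ s : ℤ, ∃ b : ℕ → K, Ann R b ∧ ∀ t : ℕ, u (s + t) = ser x b t

/-- the main lemma: values in an ideal -/
theorem IRec.mem {x : K} {R : K[X]} {u : ℤ → K} (hu : IRec x R u) (hR : R.Monic) (c : ℤ)
    (h1 : ¬ c ∣ 1) (h2 : ∀ a b : ℤ, c ∣ a * b → c ∣ a ∨ c ∣ b) (J : Ideal K)
    (hJ : ∀ (F y : K) (n : ℤ), ¬ c ∣ n → x ∣ F - n → F * y ∈ J → y ∈ J) (Z : Finset ℤ)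
    (hsep : ∀ z ∈ Z, ∀ z' ∈ Z, c ∣ z - z' → z = z') (hZ : ∀ z ∈ Z, u z ∈ J)
    (hc : R.natDegree ≤ #Z) (t : ℤ) : u t ∈ J := by
  classical
  obtain ⟨Z', hZ', hcard⟩ := Finset.exists_subset_card_eq hc
  obtain ⟨t0, ht0, ht1⟩ : ∃ t0 : ℤ, t0 ≤ t ∧ ∀ z ∈ Z', t0 ≤ z := by
    refine ⟨(insert t Z').min' ⟨t, Finset.mem_insert_self _ _⟩, ?_, fun z hz => ?_⟩
    · exact Finset.min'_le _ _ (Finset.mem_insert_self _ _)
    · exact Finset.min'_le _ _ (Finset.mem_insert_of_mem hz)
  obtain ⟨b, hb, hub⟩ := hu t0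
  have e : Fin R.natDegree ≃ Z' := (Finset.equivFinOfCardEq hcard).symm
  let tt : Fin R.natDegree → ℕ := fun k => ((e k : ℤ) - t0).toNat
  have htt : ∀ k, (tt k : ℤ) = (e k : ℤ) - t0 := by
    intro k
    have := ht1 _ (e k).2
    exact Int.toNat_of_nonneg (by omega)
  obtain ⟨D, hD1, hD2⟩ := mem_span x R hR b hb tt
  have hnd : ¬ c ∣ binDet tt := by
    refine not_dvd_binDet tt c h1 h2 fun i j hij h => ?_
    rw [htt, htt, show (e j : ℤ) - t0 - ((e i : ℤ) - t0) = (e j : ℤ) - (e i : ℤ) by ring] at h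
    have h3 := hsep _ (hZ' (e j).2) _ (hZ' (e i).2) h
    exact hij (e.injective (Subtype.ext h3.symm))
  have hspan : Ideal.span (Set.range fun k => ser x b (tt k)) ≤ J := by
    rw [Ideal.span_le]
    rintro _ ⟨k, rfl⟩
    show ser x b (tt k) ∈ J
    rw [← hub, htt]
    have h3 : t0 + ((e k : ℤ) - t0) = (e k : ℤ) := by ring
    rw [h3]
    exact hZ _ (hZ' (e k).2)
  have h4 : t = t0 + ((t - t0).toNat : ℤ) := by
    rw [Int.toNat_of_nonneg (by omega)]
    ring
  rw [h4, hub]
  exact hJ D _ _ hnd hD1 (hspan (hD2 _))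

end Q99.SML8
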