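import Pool.Agent.Q99.SML8.Contact

/-!
# Congruences between normalised brackets
-/

set_option autoImplicit false

open Finset LaurentPolynomial Pool.Agent.H891R2.Jones Pool.Agent.W639.RB

namespace Q99.SML8

open Q99.SML Q99.SML2 Q99.SML3 Q99.SML6 Q99.SML7

/-- a constant sequence -/
theorem IRecD.const {K : Type*} [CommRing K] {x : K} (g : K) : IRecD x 1 (fun _ : ℤ => g) := by
  refine ⟨Polynomial.X, Polynomial.monic_X, Polynomial.natDegree_X_le, fun s => ?_⟩
  refine ⟨fun k => if k = 0 then g else 0, ?_, fun t => ?_⟩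
  · intro Q
    induction Q using Polynomial.induction_on' with
    | add P Q hP hQ => rw [mul_add, map_add, hP, hQ, add_zero]
    | monomial n a =>
      rw [Polynomial.X_mul_monomial, phi_monomial]
      simp
  · unfold ser
    rw [Finset.sum_eq_single 0]
    · simp
    · intro j _ hj
      simp [hj]
    · intro h
      simp at h

/-- the zero-one law for functions which are given by interpolation series on all lines -/
theorem count_rec {K : Type*} [CommRing K] {x : K} {k : ℕ} (F : (Fin k → ℤ) → K) (D : ℕ)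
    (hF : ∀ (q : Fin k → ℤ) (j : Fin k), IRecD x D (fun y : ℤ => F (Function.update q j y)))
    (c : ℤ) (h1 : ¬ c ∣ 1) (h2 : ∀ a b : ℤ, c ∣ a * b → c ∣ a ∨ c ∣ b) (J : Ideal K)
    (hJ : ∀ (G y : K) (n : ℤ), ¬ c ∣ n → x ∣ G - n → G * y ∈ J → y ∈ J) :
    (∀ q, F q ∈ J) ∨
      ∀ A : Fin k → Finset ℤ, (∀ j, ∀ z ∈ A j, ∀ z' ∈ A j, c ∣ z - z' → z = z') →
        {q : Fin k → ℤ | (∀ j, q j ∈ A j) ∧ F q ∈ J}.ncard ≤
          (D - 1) * ∑ j, ∏ l ∈ univ.erase j, #(A l) := by
  classical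
  refine count_sep c (fun q => F q ∈ J) _ ?_
  intro q j Z hsep hZ hc z
  obtain ⟨R, hR1, hR2, hR3⟩ := hF q j
  exact hR3.mem hR1 c h1 h2 J hJ Z hsep hZ (by omega) z

/-- a family on a line -/
theorem fam_line {m k : ℕ} (hm : 0 < m) (O : Outer m) (w : Fin k → Word) (u : Fin k → VWord)
    (P : ℕ) (hP : ∀ j, wperm m (w j) ^ P = 1) (s : Fin k → ℤ) (q : Fin k → ℤ) (j : Fin k) :
    IRecD xx (m.choose (m / 2)) (fun y : ℤ =>
      (familyV O w u (s + (P : ℤ) • Function.update q j y)).close.fPoly) := by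
  have hupd : ∀ y : ℤ, s + (P : ℤ) • Function.update q j y =
      Function.update (s + (P : ℤ) • q) j (s j + P * y) := by
    intro y
    funext l
    by_cases hl : l = j
    · subst hl
      rw [Pi.add_apply, Pi.smul_apply, Function.update_self, Function.update_self, smul_eq_mul]
    · rw [Pi.add_apply, Pi.smul_apply, Function.update_of_ne hl, Function.update_of_ne hl,
        Pi.add_apply, Pi.smul_apply]
  have h1 : (fun y : ℤ => (familyV O w u (s + (P : ℤ) • Function.update q j y)).close.fPoly) =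
      fun y : ℤ => (familyV O w u
        (Function.update (s + (P : ℤ) • q) j (s j + P * y))).close.fPoly := by
    funext y
    rw [hupd]
  rw [h1]
  exact fam_rec hm O w u P (s + (P : ℤ) • q) j (hP j) (s j)

/-- several families and a constant -/
theorem count_comb {r k : ℕ} {m : Fin r → ℕ} (hm : ∀ i, 0 < m i) (O : ∀ i, Outer (m i))
    (w u : Fin r → Fin k → Word) (P : ℕ) (hP : ∀ i j, wperm (m i) (w i j) ^ P = 1)
    (s : Fin k → ℤ) (a : Fin r → ℤ[T;T⁻¹]) (g : ℤ[T;T⁻¹])
    (c : ℤ) (h1 : ¬ c ∣ 1) (h2 : ∀ a b : ℤ, c ∣ a * b → c ∣ a ∨ c ∣ b)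
    (J : Ideal ℤ[T;T⁻¹]) (hJ : Reg c J) :
    (∀ q : Fin k → ℤ,
        ∑ i, a i * (family (O i) (w i) (u i) (s + (P : ℤ) • q)).close.fPoly - g ∈ J) ∨
      ∀ A : Fin k → Finset ℤ, (∀ j, ∀ z ∈ A j, ∀ z' ∈ A j, c ∣ z - z' → z = z') →
        {q : Fin k → ℤ | (∀ j, q j ∈ A j) ∧
          ∑ i, a i * (family (O i) (w i) (u i) (s + (P : ℤ) • q)).close.fPoly - g ∈ J}.ncard ≤
          (∑ i, (m i).choose (m i / 2)) * ∑ j, ∏ l ∈ univ.erase j, #(A l) := by
  have h := count_rec (x := xx) (fun q : Fin k → ℤ =>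
    ∑ i, a i * (family (O i) (w i) (u i) (s + (P : ℤ) • q)).close.fPoly - g)
    (∑ i, (m i).choose (m i / 2) + 1) (fun q j => ?_) c h1 h2 J hJ
  · rw [Nat.add_sub_cancel] at h
    exact h
  · have h3 := (IRecD.sum (x := xx) (Finset.univ : Finset (Fin r))
      (fun i => (m i).choose (m i / 2))
      (fun i => a i • (fun y : ℤ => (familyV (O i) (w i) (fun j => (u i j).map Sum.inl)
        (s + (P : ℤ) • Function.update q j y)).close.fPoly))
      (fun i _ => (fam_line (hm i) (O i) (w i) _ P (hP i) s q j).smul _)).add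
      (IRecD.const (x := xx) (-g))
    have h4 : (fun y : ℤ =>
        ∑ i, a i * (family (O i) (w i) (u i) (s + (P : ℤ) • Function.update q j y)).close.fPoly
          - g) =
        (∑ i, a i • (fun y : ℤ => (familyV (O i) (w i) (fun j => (u i j).map Sum.inl)
        (s + (P : ℤ) • Function.update q j y)).close.fPoly)) + fun _ => -g := by
      funext y
      rw [Pi.add_apply, Finset.sum_apply, sub_eq_add_neg]
      congr 1
      refine Finset.sum_congr rfl fun i _ => ?_
      rw [family_eq]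
      rfl
    rw [h4]
    exact h3

/-- residue classes which meet a set -/
theorem classes {Q : ℤ → Prop} (p : ℕ) (hp : 0 < p) (M : ℕ)
    (h : ∀ A : Finset ℤ, (∀ z ∈ A, ∀ z' ∈ A, (p : ℤ) ∣ z - z' → z = z') →
      {z : ℤ | z ∈ A ∧ Q z}.ncard ≤ M) :
    ∃ R : Finset ℤ, #R ≤ M ∧ ∀ z, Q z → ∃ c ∈ R, (p : ℤ) ∣ z - c := by
  classical
  have hp0 : (0 : ℤ) < p := by exact_mod_cast hp
  set Cl : Finset ℤ := ((Finset.range p).image (fun n : ℕ => (n : ℤ))).filter
    (fun c => ∃ z, Q z ∧ z % p = c) with hCl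
  have hrep : ∀ c ∈ Cl, ∃ z, Q z ∧ z % p = c := fun c hc => (Finset.mem_filter.1 hc).2
  choose! g hg1 hg2 using hrep
  have hginj : Set.InjOn g (Cl : Set ℤ) := by
    intro a ha b hb hab
    rw [← hg2 a ha, ← hg2 b hb, hab]
  refine ⟨Cl.image g, ?_, fun z hz => ?_⟩
  · have h1 := h (Cl.image g) (by
      intro z hz z' hz' hd
      rw [Finset.mem_image] at hz hz'
      obtain ⟨a, ha, rfl⟩ := hz
      obtain ⟨b, hb, rfl⟩ := hz'
      have h2 : g a % p = g b % p := Int.emod_eq_emod_iff_emod_sub_eq_zero.2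
        (Int.emod_eq_zero_of_dvd hd)
      rw [hg2 a ha, hg2 b hb] at h2
      rw [h2])
    refine le_trans ?_ h1
    have h4 : {z : ℤ | z ∈ Cl.image g ∧ Q z} = ((Cl.image g : Finset ℤ) : Set ℤ) := by
      ext z
      constructor
      · rintro ⟨hz, -⟩
        exact hz
      · intro hz
        refine ⟨hz, ?_⟩
        rw [Finset.mem_coe, Finset.mem_image] at hz
        obtain ⟨a, ha, rfl⟩ := hz
        exact hg1 a ha
    rw [h4, Set.ncard_coe_finset]
  · have hmem : z % p ∈ Cl := by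
      rw [hCl, Finset.mem_filter, Finset.mem_image]
      refine ⟨⟨(z % p).toNat, ?_, ?_⟩, z, hz, rfl⟩
      · rw [Finset.mem_range]
        have h1 := Int.emod_nonneg z hp0.ne'
        have h2 := Int.emod_lt_of_pos z hp0
        omega
      · exact Int.toNat_of_nonneg (Int.emod_nonneg z hp0.ne')
    refine ⟨g (z % p), Finset.mem_image_of_mem g hmem, ?_⟩
    apply Int.dvd_of_emod_eq_zero
    exact Int.emod_eq_emod_iff_emod_sub_eq_zero.1 (hg2 _ hmem).symm

/-- the density in a cube -/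
theorem cube {k : ℕ} (Q : (Fin k → ℤ) → Prop) (p : ℕ) (hp : 0 < p) (M : ℕ)
    (h : ∀ A : Fin k → Finset ℤ, (∀ j, ∀ z ∈ A j, ∀ z' ∈ A j, (p : ℤ) ∣ z - z' → z = z') →
      {q : Fin k → ℤ | (∀ j, q j ∈ A j) ∧ Q q}.ncard ≤ M * ∑ j, ∏ l ∈ univ.erase j, #(A l))
    (n : ℕ) (hn : p ∣ n) :
    p * {q : Fin k → ℤ | (∀ j, 0 ≤ q j ∧ q j < n) ∧ Q q}.ncard ≤ k * M * n ^ k := by
  classical
  obtain ⟨t, rfl⟩ := hn
  have hp0 : (0 : ℤ) < p := by exact_mod_cast hp
  have hf : {q : Fin k → ℤ | (∀ j, 0 ≤ q j ∧ q j < ((p * t : ℕ) : ℤ)) ∧ Q q}.Finite := by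
    apply (Fintype.piFinset fun _ : Fin k => Finset.Ico (0 : ℤ) (p * t : ℕ)).finite_toSet.subset
    intro q hq
    rw [Finset.mem_coe, Fintype.mem_piFinset]
    exact fun j => Finset.mem_Ico.2 (hq.1 j)
  rw [Set.ncard_eq_toFinset_card _ hf]
  have h1 : ∀ q ∈ hf.toFinset, (fun j => q j / (p : ℤ)) ∈
      Fintype.piFinset fun _ : Fin k => Finset.Ico (0 : ℤ) t := by
    intro q hq
    rw [Set.Finite.mem_toFinset] at hq
    rw [Fintype.mem_piFinset]
    intro j
    rw [Finset.mem_Ico]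
    refine ⟨Int.ediv_nonneg (hq.1 j).1 hp0.le, ?_⟩
    apply Int.ediv_lt_of_lt_mul hp0
    have h2 := (hq.1 j).2
    push_cast at h2
    rw [mul_comm]
    exact h2
  rw [Finset.card_eq_sum_card_fiberwise (f := fun q : Fin k → ℤ => fun j => q j / (p : ℤ))
    (t := Fintype.piFinset fun _ : Fin k => Finset.Ico (0 : ℤ) t) h1]
  have h2 : ∀ b ∈ Fintype.piFinset fun _ : Fin k => Finset.Ico (0 : ℤ) t,
      #(hf.toFinset.filter fun q => (fun j => q j / (p : ℤ)) = b) ≤ M * (k * p ^ (k - 1)) := by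
    intro b _
    have h3 := h (fun j => Finset.Ico ((p : ℤ) * b j) (p * b j + p)) (by
      intro j z hz z' hz' hd
      rw [Finset.mem_Ico] at hz hz'
      have h4 : |z - z'| < p := by
        rw [abs_lt]
        constructor <;> linarith
      have h5 := Int.eq_zero_of_abs_lt_dvd hd h4
      linarith)
    have h6 : ∀ j : Fin k, #(Finset.Ico ((p : ℤ) * b j) (p * b j + p)) = p := by
      intro j
      rw [Int.card_Ico]
      have : (p : ℤ) * b j + p - p * b j = p := by ring
      rw [this, Int.toNat_natCast]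
    simp only [h6, Finset.prod_const, Finset.card_erase_of_mem (Finset.mem_univ _),
      Finset.card_univ, Fintype.card_fin, Finset.sum_const, smul_eq_mul] at h3
    refine le_trans ?_ h3
    rw [← Set.ncard_coe_finset]
    refine Set.ncard_le_ncard ?_ ?_
    · intro q hq
      rw [Finset.mem_coe, Finset.mem_filter, Set.Finite.mem_toFinset] at hq
      refine ⟨fun j => ?_, hq.1.2⟩
      have h7 : q j / (p : ℤ) = b j := congrFun hq.2 j
      rw [Finset.mem_Ico, ← h7]
      have h8 := Int.emod_nonneg (q j) hp0.ne'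
      have h9 := Int.emod_lt_of_pos (q j) hp0
      have h10 := Int.emod_add_mul_ediv (q j) p
      constructor <;> linarith
    · apply (Fintype.piFinset fun j : Fin k =>
        Finset.Ico ((p : ℤ) * b j) (p * b j + p)).finite_toSet.subset
      intro q hq
      rw [Finset.mem_coe, Fintype.mem_piFinset]
      exact hq.1
  have h3 := Finset.sum_le_card_nsmul _ _ _ h2
  rw [Fintype.card_piFinset] at h3
  simp only [Int.card_Ico, sub_zero, Int.toNat_natCast, Finset.prod_const, Finset.card_univ,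
    Fintype.card_fin, smul_eq_mul] at h3
  refine (Nat.mul_le_mul_left p h3).trans ?_
  rcases Nat.eq_zero_or_pos k with hk | hk
  · subst hk
    simp
  · obtain ⟨k', rfl⟩ : ∃ k', k = k' + 1 := ⟨k - 1, by omega⟩
    rw [Nat.add_sub_cancel]
    apply le_of_eq
    ring

end Q99.SML8
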