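import Pool.Agent.Q99.SML8.Ideals
import Pool.Agent.Q99.SML4.Order

/-!
# Contact orders
-/

set_option autoImplicit false

open Finset LaurentPolynomial Pool.Agent.H891R2.Jones Pool.Agent.W639.RB
  Pool.Agent.H832R3.VJ

namespace Q99.SML8

open Q99.SML Q99.SML2 Q99.SML3 Q99.SML6 Q99.SML7

theorem emultiplicity_top (F : ℤ[T;T⁻¹]) : emultiplicity xx F = ⊤ ↔ F = 0 := by
  constructor
  · intro h
    refine Q99.SML4.fPoly_of_moment fun j => ?_
    have h1 : xx ^ (j + 1) ∣ F := by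
      rw [pow_dvd_iff_le_emultiplicity, h]
      exact le_top
    rw [moment_of_dvd j F h1]
    have h2 := moment_of_dvd j 0 (dvd_zero _)
    exact h2.symm
  · rintro rfl
    exact emultiplicity_zero _

/-- a sequence of Laurent polynomials with a zero-one law modulo all powers of `A - 1` has an almost
constant order of vanishing -/
theorem exists_delta {k : ℕ} (F : (Fin k → ℤ) → ℤ[T;T⁻¹]) (M : ℕ)
    (h : ∀ d : ℕ, (∀ q, F q ∈ Ideal.span {xx ^ d}) ∨ ∀ A : Fin k → Finset ℤ,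
      (∀ j, ∀ z ∈ A j, ∀ z' ∈ A j, (0 : ℤ) ∣ z - z' → z = z') →
      {q : Fin k → ℤ | (∀ j, q j ∈ A j) ∧ F q ∈ Ideal.span {xx ^ d}}.ncard ≤
        M * ∑ j, ∏ l ∈ univ.erase j, #(A l)) :
    ∃ δ : ℕ∞, (δ = ⊤ ↔ ∀ q, F q = 0) ∧ (∀ q, δ ≤ emultiplicity xx (F q)) ∧
      ∀ A : Fin k → Finset ℤ,
        {q : Fin k → ℤ | (∀ j, q j ∈ A j) ∧ emultiplicity xx (F q) ≠ δ}.ncard ≤
          M * ∑ j, ∏ l ∈ univ.erase j, #(A l) := by
  classical
  by_cases hall : ∀ q, F q = 0
  · refine ⟨⊤, ⟨fun _ => hall, fun _ => rfl⟩, fun q => ?_, fun A => ?_⟩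
    · rw [(emultiplicity_top _).2 (hall q)]
    · have he : {q : Fin k → ℤ | (∀ j, q j ∈ A j) ∧ emultiplicity xx (F q) ≠ ⊤} = ∅ := by
        rw [Set.eq_empty_iff_forall_notMem]
        rintro q ⟨_, hq⟩
        exact hq ((emultiplicity_top _).2 (hall q))
      rw [he, Set.ncard_empty]
      exact Nat.zero_le _
  · have hex : ∃ n : ℕ, ∃ q, ¬ F q ∈ Ideal.span {xx ^ (n + 1)} := by
      push Not at hall
      obtain ⟨q, hq⟩ := hall
      have h1 : emultiplicity xx (F q) ≠ ⊤ := fun h1 => hq ((emultiplicity_top _).1 h1)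
      obtain ⟨n, hn⟩ := ENat.ne_top_iff_exists.1 h1
      refine ⟨n, q, fun h2 => ?_⟩
      rw [Ideal.mem_span_singleton, pow_dvd_iff_le_emultiplicity, ← hn] at h2
      have h3 : n + 1 ≤ n := by exact_mod_cast h2
      omega
    set n := Nat.find hex with hn
    have hspec := Nat.find_spec hex
    rw [← hn] at hspec
    have hmin : ∀ q, (n : ℕ∞) ≤ emultiplicity xx (F q) := by
      intro q
      rw [← pow_dvd_iff_le_emultiplicity]
      rcases Nat.eq_zero_or_pos n with h0 | h0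
      · rw [h0, pow_zero]
        exact one_dvd _
      · have h1 := Nat.find_min hex (m := n - 1) (by omega)
        push Not at h1
        have h2 := h1 q
        rw [Ideal.mem_span_singleton, Nat.sub_add_cancel h0] at h2
        exact h2
    refine ⟨n, ⟨fun h1 => absurd h1 (ENat.natCast_ne_top n), fun h1 => absurd h1 hall⟩, hmin,
      fun A => ?_⟩
    rcases h (n + 1) with h1 | h1
    · obtain ⟨q, hq⟩ := hspec
      exact absurd (h1 q) hq
    · have h2 := h1 A (fun j z _ z' _ hz => by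
        rw [zero_dvd_iff, sub_eq_zero] at hz
        exact hz)
      refine le_trans (Set.ncard_le_ncard ?_ ?_) h2
      · rintro q ⟨hq1, hq2⟩
        refine ⟨hq1, ?_⟩
        rw [Ideal.mem_span_singleton, pow_dvd_iff_le_emultiplicity]
        have h3 := lt_of_le_of_ne (hmin q) (Ne.symm hq2)
        exact_mod_cast Order.add_one_le_of_lt h3
      · apply (Fintype.piFinset A).finite_toSet.subset
        intro q hq
        rw [Finset.mem_coe, Fintype.mem_piFinset]
        exact hq.1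

/-- members of different families (classical words) -/
theorem lin_pair {m m' k : ℕ} (O : Outer m) (O' : Outer m') (w u w' u' : Fin k → Word)
    (c c' : ℤ[T;T⁻¹]) (n : Fin k → ℤ) :
    lin (m := ![m, m']) (Fin.cons O (Fin.cons O' finZeroElim)) (Fin.cons w (Fin.cons w' finZeroElim))
      (Fin.cons (fun j => (u j).map Sum.inl) (Fin.cons (fun j => (u' j).map Sum.inl) finZeroElim))
      ![c, c'] n = c * (family O w u n).close.fPoly + c' * (family O' w' u' n).close.fPoly := by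
  unfold lin
  rw [Fin.sum_univ_two, family_eq, family_eq]
  rfl

/-- the law for two families -/
theorem count_pair {m m' k : ℕ} (hm : 0 < m) (hm' : 0 < m') (O : Outer m) (O' : Outer m')
    (w u w' u' : Fin k → Word) (P : ℕ) (hP : ∀ j, wperm m (w j) ^ P = 1)
    (hP' : ∀ j, wperm m' (w' j) ^ P = 1) (s : Fin k → ℤ) (a a' : ℤ[T;T⁻¹])
    (c : ℤ) (h1 : ¬ c ∣ 1) (h2 : ∀ a b : ℤ, c ∣ a * b → c ∣ a ∨ c ∣ b)
    (J : Ideal ℤ[T;T⁻¹]) (hJ : Reg c J) :
    (∀ q : Fin k → ℤ, a * (family O w u (s + (P : ℤ) • q)).close.fPoly +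
        a' * (family O' w' u' (s + (P : ℤ) • q)).close.fPoly ∈ J) ∨
      ∀ A : Fin k → Finset ℤ, (∀ j, ∀ z ∈ A j, ∀ z' ∈ A j, c ∣ z - z' → z = z') →
        {q : Fin k → ℤ | (∀ j, q j ∈ A j) ∧
          a * (family O w u (s + (P : ℤ) • q)).close.fPoly +
            a' * (family O' w' u' (s + (P : ℤ) • q)).close.fPoly ∈ J}.ncard ≤
          (m.choose (m / 2) + m'.choose (m' / 2) - 1) * ∑ j, ∏ l ∈ univ.erase j, #(A l) := by
  have h := count_ideal (r := 2) (m := ![m, m']) (fun i => by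
      refine Fin.cases hm (fun i => ?_) i
      have : i = 0 := Subsingleton.elim _ _
      subst this
      exact hm')
    (Fin.cons O (Fin.cons O' finZeroElim))
    (Fin.cons w (Fin.cons w' finZeroElim))
    (Fin.cons (fun j => (u j).map Sum.inl) (Fin.cons (fun j => (u' j).map Sum.inl) finZeroElim))
    P (fun i => by
      refine Fin.cases hP (fun i => ?_) i
      have : i = 0 := Subsingleton.elim _ _
      subst this
      exact hP') s ![a, a'] c h1 h2 J hJ
  simp only [lin_pair, Fin.sum_univ_two] at h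
  exact h

theorem family_plain {k : ℕ} : ∀ (n : Fin k → ℤ),
    (family Q99.SML4.plain (fun _ => []) (fun _ => []) n).close.fPoly = 1 := by
  have h : ∀ (k : ℕ) (n : Fin k → ℤ) (O : Outer 1), family O (fun _ => []) (fun _ => []) n = O := by
    intro k
    induction k with
    | zero => intro n O; rfl
    | succ k ih =>
      intro n O
      rw [family]
      have h1 : power O [] (n 0) = O := by
        rcases n 0 with z | z
        · show (fun O : Outer 1 => draw O [])^[z] O = O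
          exact Function.iterate_fixed rfl z
        · show (fun O : Outer 1 => draw O (invWord []))^[z + 1] O = O
          exact Function.iterate_fixed rfl (z + 1)
      show family (draw (power O [] (n 0)) []) _ _ _ = O
      rw [h1]
      exact ih _ _
  intro n
  rw [h]
  exact fPoly_unknot

/-- the law for one family and a constant -/
theorem count_const {m k : ℕ} (hm : 0 < m) (O : Outer m)
    (w u : Fin k → Word) (P : ℕ) (hP : ∀ j, wperm m (w j) ^ P = 1) (s : Fin k → ℤ)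
    (g : ℤ[T;T⁻¹]) (c : ℤ) (h1 : ¬ c ∣ 1) (h2 : ∀ a b : ℤ, c ∣ a * b → c ∣ a ∨ c ∣ b)
    (J : Ideal ℤ[T;T⁻¹]) (hJ : Reg c J) :
    (∀ q : Fin k → ℤ, (family O w u (s + (P : ℤ) • q)).close.fPoly - g ∈ J) ∨
      ∀ A : Fin k → Finset ℤ, (∀ j, ∀ z ∈ A j, ∀ z' ∈ A j, c ∣ z - z' → z = z') →
        {q : Fin k → ℤ | (∀ j, q j ∈ A j) ∧
          (family O w u (s + (P : ℤ) • q)).close.fPoly - g ∈ J}.ncard ≤
          m.choose (m / 2) * ∑ j, ∏ l ∈ univ.erase j, #(A l) := by
  have h := count_pair hm one_pos O Q99.SML4.plain w u (fun _ => []) (fun _ => []) P hP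
    (fun j => by
      have h0 : wperm 1 [] = 1 := rfl
      rw [h0, one_pow]) s 1 (-g) c h1 h2 J hJ
  have e1 : (1 : ℕ).choose (1 / 2) = 1 := rfl
  simp only [family_plain, one_mul, mul_one, ← sub_eq_add_neg, e1, Nat.add_sub_cancel] at h
  exact h

/-- the law for two families, differences -/
theorem count_diff {m m' k : ℕ} (hm : 0 < m) (hm' : 0 < m') (O : Outer m) (O' : Outer m')
    (w u w' u' : Fin k → Word) (P : ℕ) (hP : ∀ j, wperm m (w j) ^ P = 1)
    (hP' : ∀ j, wperm m' (w' j) ^ P = 1) (s : Fin k → ℤ)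
    (c : ℤ) (h1 : ¬ c ∣ 1) (h2 : ∀ a b : ℤ, c ∣ a * b → c ∣ a ∨ c ∣ b)
    (J : Ideal ℤ[T;T⁻¹]) (hJ : Reg c J) :
    (∀ q : Fin k → ℤ, (family O w u (s + (P : ℤ) • q)).close.fPoly -
        (family O' w' u' (s + (P : ℤ) • q)).close.fPoly ∈ J) ∨
      ∀ A : Fin k → Finset ℤ, (∀ j, ∀ z ∈ A j, ∀ z' ∈ A j, c ∣ z - z' → z = z') →
        {q : Fin k → ℤ | (∀ j, q j ∈ A j) ∧
          (family O w u (s + (P : ℤ) • q)).close.fPoly -
            (family O' w' u' (s + (P : ℤ) • q)).close.fPoly ∈ J}.ncard ≤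
          (m.choose (m / 2) + m'.choose (m' / 2) - 1) * ∑ j, ∏ l ∈ univ.erase j, #(A l) := by
  have h := count_pair hm hm' O O' w u w' u' P hP hP' s 1 (-1) c h1 h2 J hJ
  simp only [one_mul, neg_one_mul, ← sub_eq_add_neg] at h
  exact h

theorem prime_zero : (¬ (0 : ℤ) ∣ 1) ∧ ∀ a b : ℤ, (0 : ℤ) ∣ a * b → (0 : ℤ) ∣ a ∨ (0 : ℤ) ∣ b := by
  refine ⟨by norm_num, fun a b h => ?_⟩
  rw [zero_dvd_iff] at h ⊢
  rw [zero_dvd_iff]
  exact mul_eq_zero.1 h

theorem prime_p (p : ℕ) (hp : p.Prime) : (¬ (p : ℤ) ∣ 1) ∧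
    ∀ a b : ℤ, (p : ℤ) ∣ a * b → (p : ℤ) ∣ a ∨ (p : ℤ) ∣ b := by
  have h := Nat.prime_iff_prime_int.1 hp
  exact ⟨h.not_dvd_one, fun a b hab => h.dvd_or_dvd hab⟩

/-- diagrams with contact order `n` are separated in order `n` -/
theorem separated_of_contact (X Y : Dia) (n : ℕ)
    (h : emultiplicity xx (X.D.fPoly - Y.D.fPoly) = n) : Separated n X Y := by
  by_contra hs
  have h1 : xx ^ (n + 1) ∣ X.D.fPoly - Y.D.fPoly := by
    refine xpow_dvd_of_tay (n + 1) _ fun j hj => ?_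
    rw [tay_sub, sub_eq_zero]
    by_contra hne
    exact hs ⟨j, by omega, _, isVassiliev_tay j, hne⟩
  rw [pow_dvd_iff_le_emultiplicity, h] at h1
  have h3 : n + 1 ≤ n := by exact_mod_cast h1
  omega

end Q99.SML8
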