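import Pool.Agent.Q99.SML8.Main
import Pool.Agent.H832R3.VJ.Fin

/-!
# Ideals of Laurent polynomials, Taylor coefficients at `A = 1`, Vassiliev invariants
-/

set_option autoImplicit false

open Finset LaurentPolynomial Pool.Agent.H891R2.Jones Pool.Agent.W639.RB
  Pool.Agent.H832R3.VJ

namespace Q99.SML8

open Q99.SML Q99.SML2 Q99.SML3 Q99.SML6 Q99.SML7

/-! ### regular ideals -/

theorem not_xx_dvd {F : ℤ[T;T⁻¹]} {n : ℤ} (hn : n ≠ 0) (h : xx ∣ F - (n : ℤ[T;T⁻¹])) :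
    ¬ xx ∣ F := by
  intro h1
  rw [xx_dvd_iff] at h h1
  rw [map_sub, h1, map_intCast, zero_sub, neg_eq_zero] at h
  exact hn (by exact_mod_cast h)

theorem reg_bot : Reg 0 ⊥ := by
  intro F y n hn h hy
  rw [Ideal.mem_bot] at hy ⊢
  rcases mul_eq_zero.1 hy with h1 | h1
  · exact absurd (h1 ▸ dvd_zero _) (not_xx_dvd (fun h0 => hn (by rw [h0])) h)
  · exact h1

theorem reg_xpow (d : ℕ) : Reg 0 (Ideal.span {xx ^ d}) := by
  intro F y n hn h hy
  rw [Ideal.mem_span_singleton] at hy ⊢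
  exact xx_prime.pow_dvd_of_dvd_mul_left d (not_xx_dvd (fun h0 => hn (by rw [h0])) h) hy

/-- a number prime to `p` is invertible modulo `p^e` and a power of `A - 1` -/
theorem reg_mixed (p e d : ℕ) (hp : p.Prime) :
    Reg (p : ℤ) (Ideal.span {((p ^ e : ℕ) : ℤ[T;T⁻¹]), xx ^ d}) := by
  intro F y n hn h hy
  set J := Ideal.span {((p ^ e : ℕ) : ℤ[T;T⁻¹]), xx ^ d} with hJ
  have hpi : Prime (p : ℤ) := Nat.prime_iff_prime_int.1 hp
  have hco : IsCoprime (n : ℤ) ((p : ℤ) ^ e) :=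
    ((hpi.coprime_iff_not_dvd.2 hn).pow_left (m := e)).symm
  obtain ⟨a, b, hab⟩ := hco
  obtain ⟨G, hG⟩ := h
  -- `a F = 1 + xx * (a G) - b p^e`
  have h1 : ((a : ℤ) : ℤ[T;T⁻¹]) * F =
      1 + xx * ((a : ℤ[T;T⁻¹]) * G) - (b : ℤ[T;T⁻¹]) * ((p ^ e : ℕ) : ℤ[T;T⁻¹]) := by
    have h2 : F = (n : ℤ[T;T⁻¹]) + xx * G := by rw [← hG]; ring
    have h3 : (a : ℤ[T;T⁻¹]) * (n : ℤ[T;T⁻¹]) + (b : ℤ[T;T⁻¹]) * ((p : ℤ[T;T⁻¹]) ^ e) = 1 := by
      exact_mod_cast congrArg (Int.cast : ℤ → ℤ[T;T⁻¹]) hab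
    rw [h2]
    push_cast
    linear_combination h3
  have hpm : ((p ^ e : ℕ) : ℤ[T;T⁻¹]) ∈ J := Ideal.subset_span (by simp)
  have hxm : xx ^ d ∈ J := Ideal.subset_span (by simp)
  -- `(1 + xx H) y ∈ J`
  set H := (a : ℤ[T;T⁻¹]) * G with hH
  have h4 : (1 + xx * H) * y ∈ J := by
    have h5 : (1 + xx * H) * y = (a : ℤ[T;T⁻¹]) * (F * y) +
        ((b : ℤ[T;T⁻¹]) * y) * ((p ^ e : ℕ) : ℤ[T;T⁻¹]) := by
      linear_combination (-y) * h1
    rw [h5]
    exact J.add_mem (J.mul_mem_left _ hy) (J.mul_mem_left _ hpm)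
  have h6 : (1 + xx * H) ∣ 1 - (-(xx * H)) ^ d := by
    have h7 := sub_dvd_pow_sub_pow (1 : ℤ[T;T⁻¹]) (-(xx * H)) d
    rw [one_pow, sub_neg_eq_add] at h7
    exact h7
  obtain ⟨U, hU⟩ := h6
  have h8 : y = U * ((1 + xx * H) * y) + ((-1) ^ d * H ^ d * y) * xx ^ d := by
    have h9 : (-(xx * H)) ^ d = (-1) ^ d * H ^ d * xx ^ d := by
      rw [neg_eq_neg_one_mul, mul_pow, mul_pow]
      ring
    rw [h9] at hU
    linear_combination y * hU
  rw [h8]
  exact J.add_mem (J.mul_mem_left _ h4) (J.mul_mem_left _ hxm)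

/-! ### primes -/

section

variable (p : ℕ) [Fact p.Prime]

/-- `T` as a unit -/
noncomputable def unitP : ((ZMod p)[T;T⁻¹])ˣ where
  val := T 1
  inv := T (-1)
  val_inv := by rw [← T_add, add_neg_cancel, T_zero]
  inv_val := by rw [← T_add, neg_add_cancel, T_zero]

theorem unitP_zpow (n : ℤ) : ((unitP p ^ n : ((ZMod p)[T;T⁻¹])ˣ) : (ZMod p)[T;T⁻¹]) = T n := by
  rcases n with n | n
  · show ((unitP p ^ ((n : ℕ) : ℤ) : ((ZMod p)[T;T⁻¹])ˣ) : (ZMod p)[T;T⁻¹]) = T (n : ℤ)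
    rw [zpow_natCast, Units.val_pow_eq_pow_val]
    show (T 1 : (ZMod p)[T;T⁻¹]) ^ n = _
    rw [T_pow]
    congr 1
    ring
  · rw [zpow_negSucc, ← inv_pow, Units.val_pow_eq_pow_val]
    show (T (-1) : (ZMod p)[T;T⁻¹]) ^ (n + 1) = _
    rw [T_pow]
    congr 1
    rw [Int.negSucc_eq]
    push_cast
    ring

/-- reduction of the coefficients -/
noncomputable def red : ℤ[T;T⁻¹] →+* (ZMod p)[T;T⁻¹] := spec (unitP p)

theorem red_coeff (F : ℤ[T;T⁻¹]) (n : ℤ) : (red p F).coeff n = ((F.coeff n : ℤ) : ZMod p) := by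
  induction F using LaurentPolynomial.induction_on' with
  | add F G hF hG =>
    rw [map_add, AddMonoidAlgebra.coeff_add, Finsupp.add_apply, hF, hG,
      AddMonoidAlgebra.coeff_add, Finsupp.add_apply, Int.cast_add]
  | C_mul_T k c =>
    have h1 : (C c : ℤ[T;T⁻¹]) = (c : ℤ[T;T⁻¹]) := by simp
    have h2 : red p (C c * T k) = (c : ZMod p) • (T k : (ZMod p)[T;T⁻¹]) := by
      unfold red
      rw [map_mul, spec_T, unitP_zpow, h1, map_intCast]
      rw [Int.cast_smul_eq_zsmul, zsmul_eq_mul]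
    have h3 : (C c * T k : ℤ[T;T⁻¹]) = c • (T k : ℤ[T;T⁻¹]) := by
      rw [h1, zsmul_eq_mul]
    rw [h2, h3, AddMonoidAlgebra.coeff_smul, Finsupp.smul_apply, AddMonoidAlgebra.coeff_smul,
      Finsupp.smul_apply, T_apply, T_apply]
    split_ifs <;> simp

omit [Fact p.Prime] in
theorem dvd_of_coeff (F : ℤ[T;T⁻¹]) (h : ∀ n, (p : ℤ) ∣ F.coeff n) : (p : ℤ[T;T⁻¹]) ∣ F := by
  classical
  have hF : F = ∑ n ∈ F.coeff.support, F.coeff n • (T n : ℤ[T;T⁻¹]) := by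
    apply LaurentPolynomial.ext
    intro e
    rw [AddMonoidAlgebra.coeff_sum, Finsupp.finsetSum_apply]
    have h1 : ∑ n ∈ F.coeff.support, (F.coeff n • (T n : ℤ[T;T⁻¹])).coeff e =
        ∑ n ∈ F.coeff.support, (if n = e then F.coeff e else 0) := by
      refine Finset.sum_congr rfl fun n _ => ?_
      rw [AddMonoidAlgebra.coeff_smul, Finsupp.smul_apply, T_apply]
      split_ifs with h2
      · rw [h2, smul_eq_mul, mul_one]
      · rw [smul_zero]
    rw [h1, Finset.sum_ite_eq']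
    split_ifs with h2
    · rfl
    · rw [Finsupp.mem_support_iff, not_not] at h2
      exact h2
  rw [hF]
  refine Finset.dvd_sum fun n _ => ?_
  obtain ⟨y, hy⟩ := h n
  rw [hy, mul_smul]
  refine ⟨y • T n, ?_⟩
  rw [zsmul_eq_mul]
  push_cast
  rfl

theorem dvd_of_red (F : ℤ[T;T⁻¹]) (h : red p F = 0) : (p : ℤ[T;T⁻¹]) ∣ F := by
  refine dvd_of_coeff p F fun n => ?_
  rw [← ZMod.intCast_zmod_eq_zero_iff_dvd, ← red_coeff, h, AddMonoidAlgebra.coeff_zero,
    Finsupp.zero_apply]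

theorem red_of_dvd (F : ℤ[T;T⁻¹]) (h : (p : ℤ[T;T⁻¹]) ∣ F) : red p F = 0 := by
  obtain ⟨G, rfl⟩ := h
  rw [map_mul, map_natCast]
  have h1 : ((p : ℕ) : (ZMod p)[T;T⁻¹]) = ((p : ZMod p)) • (1 : (ZMod p)[T;T⁻¹]) := by
    rw [Nat.cast_smul_eq_nsmul, nsmul_eq_mul, mul_one]
  rw [h1, ZMod.natCast_self, zero_smul, zero_mul]

theorem p_prime : Prime (p : ℤ[T;T⁻¹]) := by
  have hp := (Fact.out : p.Prime)
  refine ⟨fun h => ?_, fun h => ?_, fun a b h => ?_⟩
  · have h1 := congrArg at1 h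
    rw [map_natCast, map_zero] at h1
    exact hp.ne_zero (by exact_mod_cast h1)
  · have h1 := h.map (red p)
    rw [red_of_dvd p _ dvd_rfl] at h1
    exact not_isUnit_zero h1
  · have h1 := red_of_dvd p _ h
    rw [map_mul, mul_eq_zero] at h1
    exact h1.imp (dvd_of_red p a) (dvd_of_red p b)

theorem reg_ppow (e : ℕ) : Reg (p : ℤ) (Ideal.span {((p ^ e : ℕ) : ℤ[T;T⁻¹])}) := by
  intro F y n hn h hy
  rw [Ideal.mem_span_singleton] at hy ⊢
  push_cast at hy ⊢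
  refine (p_prime p).pow_dvd_of_dvd_mul_left e (fun h1 => hn ?_) hy
  -- the value at `1`
  obtain ⟨G, rfl⟩ := h1
  obtain ⟨g, -, hg⟩ := exists_int G
  rw [xx_dvd_iff, map_sub, map_mul, map_natCast, map_intCast, hg] at h
  refine ⟨g, ?_⟩
  have h2 : ((p : ℤ) * g : ℚ) = ((n : ℤ) : ℚ) := by
    rw [← sub_eq_zero]
    exact_mod_cast h
  exact_mod_cast h2.symm

end

/-! ### Taylor coefficients at `A = 1` -/

/-- `1 + X` as a unit of the power series ring -/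
noncomputable def oneX : (PowerSeries ℤ)ˣ :=
  (PowerSeries.isUnit_iff_constantCoeff.2 (by simp :
    IsUnit (PowerSeries.constantCoeff (1 + PowerSeries.X : PowerSeries ℤ)))).unit

theorem oneX_val : (oneX : PowerSeries ℤ) = 1 + PowerSeries.X := rfl

/-- the Taylor expansion at `A = 1` -/
noncomputable def tau : ℤ[T;T⁻¹] →+* PowerSeries ℤ := spec oneX

theorem tau_xx : tau xx = PowerSeries.X := by
  unfold tau xx
  rw [map_sub, map_one, spec_T, zpow_one, oneX_val]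
  ring

/-- the Taylor coefficients at `A = 1` -/
noncomputable def tay (j : ℕ) (F : ℤ[T;T⁻¹]) : ℤ := PowerSeries.coeff j (tau F)

theorem tay_sub (j : ℕ) (F G : ℤ[T;T⁻¹]) : tay j (F - G) = tay j F - tay j G := by
  unfold tay
  rw [map_sub, map_sub]

theorem tay_xpow_mul (n : ℕ) (G : ℤ[T;T⁻¹]) (j : ℕ) :
    tay j (xx ^ n * G) = if n ≤ j then tay (j - n) G else 0 := by
  unfold tay
  rw [map_mul, map_pow, tau_xx, PowerSeries.coeff_X_pow_mul']

theorem taylor (d : ℕ) (F : ℤ[T;T⁻¹]) : ∃ G : ℤ[T;T⁻¹],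
    F = ∑ j ∈ range d, (tay j F : ℤ[T;T⁻¹]) * xx ^ j + xx ^ d * G := by
  induction d with
  | zero => exact ⟨F, by simp⟩
  | succ d ih =>
    obtain ⟨G, hG⟩ := ih
    obtain ⟨n, ⟨H, hH⟩, -⟩ := exists_int G
    have hn : tay d F = n := by
      show PowerSeries.coeff d (tau F) = n
      rw [hG, map_add, map_sum, map_add, map_sum]
      have h1 : ∀ j ∈ range d, PowerSeries.coeff d (tau ((tay j F : ℤ[T;T⁻¹]) * xx ^ j)) = 0 := by
        intro j hj
        rw [mem_range] at hj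
        rw [map_mul, map_intCast, map_pow, tau_xx]
        have h2 : ((tay j F : ℤ) : PowerSeries ℤ) * PowerSeries.X ^ j =
            (tay j F) • (PowerSeries.X ^ j : PowerSeries ℤ) := by
          rw [zsmul_eq_mul]
        rw [h2, map_smul, PowerSeries.coeff_X_pow, if_neg (by omega), smul_zero]
      rw [Finset.sum_eq_zero h1, zero_add, map_mul, map_pow, tau_xx,
        PowerSeries.coeff_X_pow_mul', if_pos le_rfl, Nat.sub_self]
      have h3 : G = (n : ℤ[T;T⁻¹]) + xx * H := by rw [← hH]; ring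
      rw [h3, map_add, map_intCast, map_mul, tau_xx, map_add]
      have h4 : ((n : ℤ) : PowerSeries ℤ) = n • (1 : PowerSeries ℤ) := by
        rw [zsmul_eq_mul, mul_one]
      rw [h4, map_smul, PowerSeries.coeff_zero_X_mul, add_zero, PowerSeries.coeff_one,
        if_pos rfl, smul_eq_mul, mul_one]
    refine ⟨H, ?_⟩
    rw [Finset.sum_range_succ, hn]
    have h3 : G = (n : ℤ[T;T⁻¹]) + xx * H := by rw [← hH]; ring
    conv_lhs => rw [hG, h3]
    rw [pow_succ]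
    ring

/-- Taylor coefficients divisible by `N` -/
theorem mem_of_tay (N d : ℕ) (F : ℤ[T;T⁻¹]) (h : ∀ j < d, (N : ℤ) ∣ tay j F) :
    F ∈ Ideal.span {(N : ℤ[T;T⁻¹]), xx ^ d} := by
  obtain ⟨G, hG⟩ := taylor d F
  rw [hG]
  refine Ideal.add_mem _ (Ideal.sum_mem _ fun j hj => ?_) ?_
  · obtain ⟨y, hy⟩ := h j (mem_range.1 hj)
    rw [hy]
    push_cast
    rw [mul_assoc]
    exact Ideal.mul_mem_right _ _ (Ideal.subset_span (by simp))
  · exact Ideal.mul_mem_right _ _ (Ideal.subset_span (by simp))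

theorem xpow_dvd_of_tay (d : ℕ) (F : ℤ[T;T⁻¹]) (h : ∀ j < d, tay j F = 0) : xx ^ d ∣ F := by
  obtain ⟨G, hG⟩ := taylor d F
  refine ⟨G, ?_⟩
  conv_lhs => rw [hG]
  rw [Finset.sum_eq_zero, zero_add]
  intro j hj
  rw [h j (mem_range.1 hj), Int.cast_zero, zero_mul]

theorem tay_of_mem (N d : ℕ) (F : ℤ[T;T⁻¹]) (h : F ∈ Ideal.span {(N : ℤ[T;T⁻¹]), xx ^ d})
    (j : ℕ) (hj : j < d) : (N : ℤ) ∣ tay j F := by
  rw [Ideal.mem_span_pair] at h
  obtain ⟨a, b, rfl⟩ := h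
  have h1 : a * (N : ℤ[T;T⁻¹]) + b * xx ^ d = N • a + xx ^ d * b := by
    rw [nsmul_eq_mul]; ring
  have h2 : tay j (xx ^ d * b) = 0 := by
    rw [tay_xpow_mul, if_neg (by omega)]
  have h3 : tay j (N • a + xx ^ d * b) = N • tay j a + tay j (xx ^ d * b) := by
    unfold tay
    rw [map_add, map_nsmul, map_add, map_nsmul]
  rw [h1, h3, h2, add_zero, nsmul_eq_mul]
  exact dvd_mul_right _ _

/-! ### Vassiliev invariants -/

theorem sing_tay (n : ℕ) {P : Type} (hP : Finite P) (arcs : List (P × P))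
    (l : List (Crossing P)) : ∀ cr : List (Crossing P),
    sing (fun X => tay n X.D.fPoly) hP arcs cr l = tay n (singF arcs cr l) := by
  induction l with
  | nil => intro cr; rfl
  | cons x l ih =>
    intro cr
    simp only [sing, singF, tay_sub, ih]

theorem isVassiliev_tay (n : ℕ) : IsVassiliev n (fun X => tay n X.D.fPoly) := by
  refine ⟨fun X Y hX hY h => ?_, fun P hP arcs cr l hl _ => ?_⟩
  · show tay n X.D.fPoly = tay n Y.D.fPoly
    rw [fPoly_move X Y hX hY h]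
  · rw [sing_tay]
    obtain ⟨G, hG⟩ := singF_dvd arcs cr l
    rw [hl] at hG
    have h1 : singF arcs cr l = xx ^ (n + 1) * G := hG
    rw [h1, tay_xpow_mul, if_neg (by omega)]

end Q99.SML8
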