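import Pool.Agent.Q99.SML8.Ops
import Pool.Agent.Q99.SML7.Main

/-!
# Zero-one laws modulo ideals of Laurent polynomials
-/

set_option autoImplicit false

open Finset LaurentPolynomial Pool.Agent.H891R2.Jones Pool.Agent.W639.RB

namespace Q99.SML8

open Q99.SML Q99.SML2 Q99.SML3 Q99.SML6 Q99.SML7

/-! ### counting in boxes with separated sides -/

theorem box_sep (c : ℤ) (M : ℕ) : ∀ (k : ℕ) (Q : (Fin k → ℤ) → Prop)
    (_ : ∀ (q : Fin k → ℤ) (j : Fin k) (Z : Finset ℤ),
      (∀ z ∈ Z, ∀ z' ∈ Z, c ∣ z - z' → z = z') →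
      (∀ z ∈ Z, Q (Function.update q j z)) → M + 1 ≤ #Z → ∀ z : ℤ, Q (Function.update q j z))
    (_ : ∃ q, ¬ Q q)
    (A : Fin k → Finset ℤ) (_ : ∀ j, ∀ z ∈ A j, ∀ z' ∈ A j, c ∣ z - z' → z = z')
    (Bad : Finset (Fin k → ℤ)) (_ : ∀ q ∈ Bad, (∀ j, q j ∈ A j) ∧ Q q),
    #Bad ≤ M * faces A
  | 0, Q, _, hne, A, _, Bad, hBad => by
    rw [Finset.card_eq_zero.2]
    · exact Nat.zero_le _
    · rw [Finset.eq_empty_iff_forall_notMem]
      intro q hq
      obtain ⟨q0, hq0⟩ := hne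
      apply hq0
      rw [Subsingleton.elim q0 q]
      exact (hBad q hq).2
  | (k + 1), Q, h, hne, A, hA, Bad, hBad => by
    classical
    set B1 := Bad.filter (fun n => ∃ t : Fin k → ℤ, ¬ Q (Fin.cons (n 0) t)) with hB1
    set B2 := Bad.filter (fun n => ¬ ∃ t : Fin k → ℤ, ¬ Q (Fin.cons (n 0) t)) with hB2
    have hcard : #Bad = #B1 + #B2 := by
      rw [hB1, hB2, Finset.card_filter_add_card_filter_not]
    have hmem : ∀ n ∈ Bad, n 0 ∈ A 0 ∧
        Fin.tail n ∈ Fintype.piFinset (fun i : Fin k => A i.succ) := by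
      intro n hn
      exact ⟨(hBad n hn).1 0, Fintype.mem_piFinset.2 fun i => (hBad n hn).1 i.succ⟩
    have h1 : #B1 ≤ #(A 0) * (M * faces (fun i => A i.succ)) := by
      rw [Finset.card_eq_sum_card_fiberwise (f := fun n => n 0) (t := A 0)
        (fun n hn => (hmem n (Finset.mem_filter.1 hn).1).1)]
      rw [← smul_eq_mul]
      refine Finset.sum_le_card_nsmul _ _ _ fun y _ => ?_
      by_cases hy0 : ∃ t : Fin k → ℤ, ¬ Q (Fin.cons y t)
      · have hinj : Set.InjOn (Fin.tail : (Fin (k+1) → ℤ) → (Fin k → ℤ))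
            ((B1.filter (fun n => n 0 = y) : Finset _) : Set (Fin (k+1) → ℤ)) := by
          intro n hn n' hn' hnn
          rw [Finset.mem_coe, Finset.mem_filter] at hn hn'
          rw [← Fin.cons_self_tail n, ← Fin.cons_self_tail n', hnn, hn.2, hn'.2]
        rw [← Finset.card_image_of_injOn hinj]
        refine box_sep c M k (fun x => Q (Fin.cons y x)) (fun n j Z hsep hZ hc z => ?_) hy0
          (fun i => A i.succ) (fun j => hA j.succ) _ ?_
        · have := h (Fin.cons y n) j.succ Z hsep (fun z hz => by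
            rw [← Fin.cons_update]; exact hZ z hz) hc z
          rwa [← Fin.cons_update] at this
        · intro x hx
          rw [Finset.mem_image] at hx
          obtain ⟨n, hn, rfl⟩ := hx
          rw [Finset.mem_filter] at hn
          obtain ⟨hn, hy⟩ := hn
          rw [hB1, Finset.mem_filter] at hn
          have h0 : (Fin.cons (n 0) (Fin.tail n) : Fin (k+1) → ℤ) = n := Fin.cons_self_tail n
          refine ⟨fun j => (hBad n hn.1).1 j.succ, ?_⟩
          rw [← hy, h0]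
          exact (hBad n hn.1).2
      · rw [Finset.card_eq_zero.2]
        · exact Nat.zero_le _
        · rw [Finset.eq_empty_iff_forall_notMem]
          intro n hn
          obtain ⟨hn1, hn2⟩ := Finset.mem_filter.1 hn
          apply hy0
          rw [← hn2]
          exact (Finset.mem_filter.1 hn1).2
    have h2 : #B2 ≤ (∏ i : Fin k, #(A i.succ)) * M := by
      rw [Finset.card_eq_sum_card_fiberwise (f := fun n => Fin.tail n)
        (t := Fintype.piFinset (fun i : Fin k => A i.succ))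
        (fun n hn => (hmem n (Finset.mem_filter.1 hn).1).2)]
      rw [← smul_eq_mul, ← Fintype.card_piFinset]
      refine Finset.sum_le_card_nsmul _ _ _ fun x _ => ?_
      set Fb := B2.filter (fun n => Fin.tail n = x) with hFb
      have hinj : Set.InjOn (fun n : Fin (k+1) → ℤ => n 0) (Fb : Set (Fin (k+1) → ℤ)) := by
        intro n hn n' hn' hnn
        rw [Finset.mem_coe, Finset.mem_filter] at hn hn'
        have hnn' : n 0 = n' 0 := hnn
        rw [← Fin.cons_self_tail n, ← Fin.cons_self_tail n', hn.2, hn'.2, hnn']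
      rw [← Finset.card_image_of_injOn hinj]
      by_contra hcon
      push Not at hcon
      have hyx : ∀ y ∈ Fb.image (fun n : Fin (k+1) → ℤ => n 0), ∃ n ∈ Fb, n 0 = y := by
        intro y hy
        rwa [Finset.mem_image] at hy
      have hall : ∀ (t : Fin k → ℤ) (z : ℤ), Q (Fin.cons z t) := by
        intro t z
        have h3 := h (Fin.cons 0 t) 0 (Fb.image (fun n : Fin (k+1) → ℤ => n 0)) (by
          intro y hy y' hy'
          obtain ⟨n, hn, rfl⟩ := hyx y hy
          obtain ⟨n', hn', rfl⟩ := hyx y' hy'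
          rw [hFb, Finset.mem_filter, hB2, Finset.mem_filter] at hn hn'
          exact hA 0 _ (hmem n hn.1.1).1 _ (hmem n' hn'.1.1).1) (by
          intro y hy
          obtain ⟨n, hn, rfl⟩ := hyx y hy
          rw [hFb, Finset.mem_filter, hB2, Finset.mem_filter] at hn
          rw [Fin.update_cons_zero]
          by_contra hcc
          exact hn.1.2 ⟨t, hcc⟩) hcon z
        rwa [Fin.update_cons_zero] at h3
      obtain ⟨q0, hq0⟩ := hne
      apply hq0
      rw [← Fin.cons_self_tail q0]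
      exact hall _ _
    rw [hcard, faces_succ]
    calc #B1 + #B2 ≤ #(A 0) * (M * faces (fun i => A i.succ)) +
          (∏ i : Fin k, #(A i.succ)) * M := Nat.add_le_add h1 h2
      _ = _ := by ring

theorem count_sep {k : ℕ} (c : ℤ) (Q : (Fin k → ℤ) → Prop) (M : ℕ)
    (hline : ∀ (q : Fin k → ℤ) (j : Fin k) (Z : Finset ℤ),
      (∀ z ∈ Z, ∀ z' ∈ Z, c ∣ z - z' → z = z') →
      (∀ z ∈ Z, Q (Function.update q j z)) → M + 1 ≤ #Z →
        ∀ z : ℤ, Q (Function.update q j z)) :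
    (∀ q, Q q) ∨ ∀ A : Fin k → Finset ℤ, (∀ j, ∀ z ∈ A j, ∀ z' ∈ A j, c ∣ z - z' → z = z') →
      {q : Fin k → ℤ | (∀ j, q j ∈ A j) ∧ Q q}.ncard ≤
        M * ∑ j, ∏ l ∈ univ.erase j, #(A l) := by
  classical
  by_cases hall : ∀ q, Q q
  · exact Or.inl hall
  right
  intro A hA
  have hf : {q : Fin k → ℤ | (∀ j, q j ∈ A j) ∧ Q q}.Finite := by
    apply (Fintype.piFinset A).finite_toSet.subset
    intro n hn
    rw [Finset.mem_coe, Fintype.mem_piFinset]
    exact hn.1
  rw [Set.ncard_eq_toFinset_card _ hf, ← faces_eq]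
  push Not at hall
  exact box_sep c M k Q hline hall A hA hf.toFinset fun q hq => by
    rwa [Set.Finite.mem_toFinset] at hq

/-! ### near `A = 1` -/

/-- `A - 1` -/
noncomputable def xx : ℤ[T;T⁻¹] := T 1 - 1

theorem spec_unitT_one (F : ℤ[T;T⁻¹]) : spec (unitT 1) F = F := by
  induction F using LaurentPolynomial.induction_on' with
  | add F G hF hG => rw [map_add, hF, hG]
  | C_mul_T n c =>
    have h1 : (C c : ℤ[T;T⁻¹]) = (c : ℤ[T;T⁻¹]) := by simp
    rw [h1, map_mul, map_intCast, spec_T, unitT_zpow, one_mul]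

/-- the value at `A = 1` -/
noncomputable def at1 : ℤ[T;T⁻¹] →+* ℚ := spec (1 : ℚˣ)

theorem at1_T (n : ℤ) : at1 (T n) = 1 := by
  unfold at1
  rw [spec_T, one_zpow, Units.val_one]

theorem xx_dvd_T (n : ℤ) : xx ∣ T n - 1 := by
  have hnat : ∀ n : ℕ, xx ∣ (T (n : ℤ) : ℤ[T;T⁻¹]) - 1 := by
    intro n
    have h1 : (T (n : ℤ) : ℤ[T;T⁻¹]) = T 1 ^ n := by
      rw [T_pow, mul_one]
    have h2 := sub_dvd_pow_sub_pow (T 1 : ℤ[T;T⁻¹]) 1 n
    rw [one_pow] at h2
    rw [h1]
    exact h2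
  rcases n with n | n
  · exact hnat n
  · have h1 : (T (Int.negSucc n) : ℤ[T;T⁻¹]) - 1 =
        -(T (Int.negSucc n)) * ((T ((n + 1 : ℕ) : ℤ) : ℤ[T;T⁻¹]) - 1) := by
      rw [mul_sub, mul_one, neg_mul, ← T_add]
      have h2 : Int.negSucc n + ((n + 1 : ℕ) : ℤ) = 0 := by
        rw [Int.negSucc_eq]
        push_cast
        ring
      rw [h2, T_zero]
      ring
    rw [h1]
    exact Dvd.dvd.mul_left (hnat _) _

theorem exists_int (F : ℤ[T;T⁻¹]) : ∃ n : ℤ, xx ∣ F - n ∧ at1 F = n := by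
  induction F using LaurentPolynomial.induction_on' with
  | add F G hF hG =>
    obtain ⟨n, h1, h2⟩ := hF
    obtain ⟨n', h1', h2'⟩ := hG
    refine ⟨n + n', ?_, ?_⟩
    · have h3 : F + G - ((n + n' : ℤ) : ℤ[T;T⁻¹]) = (F - (n : ℤ[T;T⁻¹])) + (G - (n' : ℤ[T;T⁻¹])) := by
        push_cast
        ring
      rw [h3]
      exact dvd_add h1 h1'
    · rw [map_add, h2, h2']
      push_cast
      ring
  | C_mul_T n c =>
    have h1 : (C c : ℤ[T;T⁻¹]) = (c : ℤ[T;T⁻¹]) := by simp
    refine ⟨c, ?_, ?_⟩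
    · rw [h1]
      have h2 : (c : ℤ[T;T⁻¹]) * T n - (c : ℤ[T;T⁻¹]) = (c : ℤ[T;T⁻¹]) * (T n - 1) := by ring
      rw [h2]
      exact Dvd.dvd.mul_left (xx_dvd_T n) _
    · rw [h1, map_mul, map_intCast, at1_T, mul_one]

theorem at1_xx : at1 xx = 0 := by
  unfold xx
  rw [map_sub, at1_T, map_one, sub_self]

theorem xx_dvd (F : ℤ[T;T⁻¹]) (h : at1 F = 0) : xx ∣ F := by
  obtain ⟨n, h1, h2⟩ := exists_int F
  rw [h] at h2
  have h3 : n = 0 := by exact_mod_cast h2.symm
  rw [h3, Int.cast_zero, sub_zero] at h1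
  exact h1

theorem xx_dvd_iff (F : ℤ[T;T⁻¹]) : xx ∣ F ↔ at1 F = 0 := by
  refine ⟨fun h => ?_, xx_dvd F⟩
  obtain ⟨G, rfl⟩ := h
  rw [map_mul, at1_xx, zero_mul]

theorem xx_ne : xx ≠ 0 := by
  intro h
  have h1 := congrArg (fun F : ℤ[T;T⁻¹] => F.coeff 1) h
  have h2 : xx.coeff 1 = 1 := by
    unfold xx
    rw [AddMonoidAlgebra.coeff_sub, Finsupp.sub_apply, T_apply, if_pos rfl, ← T_zero, T_apply,
      if_neg (by norm_num), sub_zero]
  rw [h2] at h1
  exact one_ne_zero h1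

theorem xx_prime : Prime xx := by
  refine ⟨xx_ne, fun h => ?_, fun a b h => ?_⟩
  · have h1 := h.map at1
    rw [at1_xx] at h1
    exact not_isUnit_zero h1
  · rw [xx_dvd_iff, map_mul, mul_eq_zero] at h
    rw [xx_dvd_iff, xx_dvd_iff]
    exact h

theorem at1_dd : at1 (dd (unitT 1)) = -2 := by
  unfold dd
  rw [unitT_zpow, unitT_zpow, map_sub, map_neg, at1_T, at1_T]
  norm_num

theorem dd_ne : dd (unitT 1) ≠ 0 := by
  intro h
  have h1 := at1_dd
  rw [h, map_zero] at h1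
  norm_num at h1

theorem unitT_map : Units.map (at1 : ℤ[T;T⁻¹] →* ℚ) (unitT 1) = 1 := by
  apply Units.ext
  exact at1_T 1

theorem fam_rec {m k : ℕ} (hm : 0 < m) (O : Outer m) (w : Fin k → Word)
    (u : Fin k → VWord) (P : ℕ) (n : Fin k → ℤ) (j : Fin k) (hP : wperm m (w j) ^ P = 1)
    (s : ℤ) : IRecD xx (m.choose (m / 2))
      (fun t : ℤ => (familyV O w u (Function.update n j (s + P * t))).close.fPoly) := by
  have h1 := member_rec hm at1 xx xx_ne xx_dvd (unitT 1) unitT_map dd_ne O w u P n j hP s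
  simp only [spec_unitT_one] at h1
  exact h1

/-! ### the law -/

/-- the linear combination of the brackets -/
noncomputable def lin {r k : ℕ} {m : Fin r → ℕ} (O : ∀ i, Outer (m i))
    (w : Fin r → Fin k → Word) (u : Fin r → Fin k → VWord) (c : Fin r → ℤ[T;T⁻¹])
    (n : Fin k → ℤ) : ℤ[T;T⁻¹] :=
  ∑ i, c i * (familyV (O i) (w i) (u i) n).close.fPoly

/-- the condition on an ideal: numbers which are nonzero modulo `c` are non-zero-divisors near
`A = 1` -/
def Reg (c : ℤ) (J : Ideal ℤ[T;T⁻¹]) : Prop :=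
  ∀ (F y : ℤ[T;T⁻¹]) (n : ℤ), ¬ c ∣ n → xx ∣ F - n → F * y ∈ J → y ∈ J

theorem count_ideal {r k : ℕ} {m : Fin r → ℕ} (hm : ∀ i, 0 < m i) (O : ∀ i, Outer (m i))
    (w : Fin r → Fin k → Word) (u : Fin r → Fin k → VWord) (P : ℕ)
    (hP : ∀ i j, wperm (m i) (w i j) ^ P = 1) (s : Fin k → ℤ) (cf : Fin r → ℤ[T;T⁻¹])
    (c : ℤ) (h1 : ¬ c ∣ 1) (h2 : ∀ a b : ℤ, c ∣ a * b → c ∣ a ∨ c ∣ b)
    (J : Ideal ℤ[T;T⁻¹]) (hJ : Reg c J) :
    (∀ q : Fin k → ℤ, lin O w u cf (s + (P : ℤ) • q) ∈ J) ∨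
      ∀ A : Fin k → Finset ℤ, (∀ j, ∀ z ∈ A j, ∀ z' ∈ A j, c ∣ z - z' → z = z') →
        {q : Fin k → ℤ | (∀ j, q j ∈ A j) ∧ lin O w u cf (s + (P : ℤ) • q) ∈ J}.ncard ≤
          (∑ i, (m i).choose (m i / 2) - 1) * ∑ j, ∏ l ∈ univ.erase j, #(A l) := by
  classical
  refine count_sep c (fun q => lin O w u cf (s + (P : ℤ) • q) ∈ J) _ ?_
  intro q j Z hsep hZ hc z
  have hupd : ∀ y : ℤ, s + (P : ℤ) • Function.update q j y =
      Function.update (s + (P : ℤ) • q) j (s j + P * y) := by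
    intro y
    funext l
    by_cases hl : l = j
    · subst hl
      rw [Pi.add_apply, Pi.smul_apply, Function.update_self, Function.update_self, smul_eq_mul]
    · rw [Pi.add_apply, Pi.smul_apply, Function.update_of_ne hl, Function.update_of_ne hl,
        Pi.add_apply, Pi.smul_apply]
  have hrec : IRecD xx (∑ i, (m i).choose (m i / 2))
      (fun y : ℤ => lin O w u cf (s + (P : ℤ) • Function.update q j y)) := by
    have h3 := IRecD.sum (x := xx) (Finset.univ : Finset (Fin r))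
      (fun i => (m i).choose (m i / 2))
      (fun i => cf i • (fun t : ℤ => (familyV (O i) (w i) (u i)
        (Function.update (s + (P : ℤ) • q) j (s j + P * t))).close.fPoly))
      (fun i _ => (fam_rec (hm i) (O i) (w i) (u i) P (s + (P : ℤ) • q) j (hP i j) (s j)).smul _)
    have h4 : (fun y : ℤ => lin O w u cf (s + (P : ℤ) • Function.update q j y)) =
        ∑ i, cf i • (fun t : ℤ => (familyV (O i) (w i) (u i)
        (Function.update (s + (P : ℤ) • q) j (s j + P * t))).close.fPoly) := by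
      funext y
      rw [Finset.sum_apply, hupd]
      rfl
    rw [h4]
    exact h3
  obtain ⟨R, hR1, hR2, hR3⟩ := hrec
  exact hR3.mem hR1 c h1 h2 J hJ Z hsep hZ (by omega) z

end Q99.SML8
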