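import Pool.Agent.Q99.SML8.Adic
import Pool.Agent.Q99.SML6.Main

/-!
# Families of powers of braids over `ℤ[A, A⁻¹]`, near `A = 1`
-/

set_option autoImplicit false

open Finset LaurentPolynomial Pool.Agent.H891R2.Jones Pool.Agent.W639.RB Polynomial

namespace Q99.SML8

open Q99.SML Q99.SML2 Q99.SML3 Q99.SML6

variable {K : Type*} [CommRing K]

/-! ### powers of operators -/

theorem end_seq {V : Type*} [AddCommGroup V] [Module K V] (x : K) (B : Module.End K V)
    (l : V →ₗ[K] K) (v : V) (t : ℕ) :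
    l (((1 + x • B) ^ t) v) = ser x (fun k => l ((B ^ k) v)) t := by
  have h1 : (1 + x • B) ^ t =
      ∑ k ∈ Finset.range (t + 1), ((t.choose k : K) * x ^ k) • B ^ k := by
    rw [add_comm, (Commute.one_right (x • B)).add_pow]
    refine Finset.sum_congr rfl fun k _ => ?_
    rw [one_pow, mul_one, _root_.smul_pow, smul_mul_assoc, (Nat.cast_commute _ _).symm.eq,
      ← nsmul_eq_mul, mul_comm, mul_comm (x ^ k), mul_smul, Nat.cast_smul_eq_nsmul,
      smul_comm]
  rw [h1, ser, LinearMap.sum_apply, map_sum]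
  refine Finset.sum_congr rfl fun k _ => ?_
  rw [LinearMap.smul_apply, map_smul, smul_eq_mul]
  ring

theorem phi_end {V : Type*} [AddCommGroup V] [Module K V] (B : Module.End K V) (l : V →ₗ[K] K)
    (v : V) (Q : K[X]) : phi (fun k => l ((B ^ k) v)) Q = l (aeval B Q v) := by
  induction Q using Polynomial.induction_on' with
  | add P Q hP hQ => rw [map_add, map_add, hP, hQ, LinearMap.add_apply, map_add]
  | monomial n a =>
    rw [phi_monomial, aeval_monomial, ← Algebra.smul_def, LinearMap.smul_apply, map_smul,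
      smul_eq_mul]

theorem end_ann {V : Type*} [AddCommGroup V] [Module K V] (B : Module.End K V) (l : V →ₗ[K] K)
    (v : V) (P : K[X]) (hP : aeval B P = 0) : Ann P (fun k => l ((B ^ k) v)) := by
  intro Q
  rw [phi_end, map_mul, hP, zero_mul, LinearMap.zero_apply, map_zero]

/-! ### closure properties -/

theorem ser_add (x : K) (b b' : ℕ → K) (t : ℕ) : ser x (b + b') t = ser x b t + ser x b' t := by
  unfold ser
  rw [← Finset.sum_add_distrib]
  refine Finset.sum_congr rfl fun j _ => ?_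
  rw [Pi.add_apply]; ring

theorem ser_smul (x c : K) (b : ℕ → K) (t : ℕ) : ser x (c • b) t = c * ser x b t := by
  unfold ser
  rw [Finset.mul_sum]
  refine Finset.sum_congr rfl fun j _ => ?_
  rw [Pi.smul_apply, smul_eq_mul]; ring

theorem IRec.add {x : K} {P P' : K[X]} {u u' : ℤ → K} (h : IRec x P u) (h' : IRec x P' u') :
    IRec x (P * P') (u + u') := by
  intro s
  obtain ⟨b, h1, h2⟩ := h s
  obtain ⟨b', h1', h2'⟩ := h' s
  refine ⟨b + b', h1.add h1', fun t => ?_⟩
  rw [Pi.add_apply, h2, h2', ser_add]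

theorem IRec.smul {x : K} {P : K[X]} {u : ℤ → K} (h : IRec x P u) (c : K) :
    IRec x P (c • u) := by
  intro s
  obtain ⟨b, h1, h2⟩ := h s
  refine ⟨c • b, h1.smul c, fun t => ?_⟩
  rw [Pi.smul_apply, smul_eq_mul, h2, ser_smul]

theorem IRec.of_end {x : K} {V : Type*} [AddCommGroup V] [Module K V] (N : (Module.End K V)ˣ)
    (B : Module.End K V) (hN : N.1 = 1 + x • B) (P : K[X])
    (hP : aeval B P = 0) (l : V →ₗ[K] K) (v : V) :
    IRec x P (fun t : ℤ => l ((N ^ t : (Module.End K V)ˣ).1 v)) := by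
  intro s
  refine ⟨fun k => (l ∘ₗ (N ^ s : (Module.End K V)ˣ).1) ((B ^ k) v), end_ann B _ v P hP,
    fun t => ?_⟩
  show l ((N ^ (s + (t : ℤ)) : (Module.End K V)ˣ).1 v) = _
  rw [_root_.zpow_add, zpow_natCast, ← end_seq, ← hN]
  rfl

/-- `u` is annihilated by a monic polynomial of degree at most `D` -/
def IRecD (x : K) (D : ℕ) (u : ℤ → K) : Prop :=
  ∃ P : K[X], P.Monic ∧ P.natDegree ≤ D ∧ IRec x P u

theorem IRecD.add [Nontrivial K] {x : K} {D D' : ℕ} {u u' : ℤ → K} (h : IRecD x D u)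
    (h' : IRecD x D' u') : IRecD x (D + D') (u + u') := by
  obtain ⟨P, h1, h2, h3⟩ := h
  obtain ⟨P', h1', h2', h3'⟩ := h'
  refine ⟨P * P', h1.mul h1', ?_, h3.add h3'⟩
  rw [h1.natDegree_mul h1']
  exact Nat.add_le_add h2 h2'

theorem IRecD.smul {x : K} {D : ℕ} {u : ℤ → K} (h : IRecD x D u) (c : K) :
    IRecD x D (c • u) := by
  obtain ⟨P, h1, h2, h3⟩ := h
  exact ⟨P, h1, h2, h3.smul c⟩

theorem IRecD.zero {x : K} : IRecD x 0 (0 : ℤ → K) := by
  refine ⟨1, monic_one, by rw [natDegree_one], fun s => ⟨0, ?_, fun t => ?_⟩⟩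
  · intro Q
    rw [one_mul]
    induction Q using Polynomial.induction_on' with
    | add P Q hP hQ => rw [map_add, hP, hQ, add_zero]
    | monomial n a =>
      rw [phi_monomial]
      simp
  · unfold ser
    simp

theorem IRecD.sum [Nontrivial K] {x : K} {ι : Type*} (s : Finset ι) (D : ι → ℕ)
    (u : ι → ℤ → K) (h : ∀ i ∈ s, IRecD x (D i) (u i)) :
    IRecD x (∑ i ∈ s, D i) (∑ i ∈ s, u i) := by
  classical
  induction s using Finset.induction_on with
  | empty => exact IRecD.zero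
  | insert a s ha ih =>
    rw [Finset.sum_insert ha, Finset.sum_insert ha]
    exact (h a (Finset.mem_insert_self _ _)).add
      (ih fun i hi => h i (Finset.mem_insert_of_mem hi))

/-! ### transfer without a unit -/

theorem exists_RR' {m : ℕ} (d : K) (f : Mt m) (F : Mt m → K) :
    ∃ (n : ℕ) (G : NX m → K), RR d f (d ^ n • F) G := by
  classical
  let c : NX m → List (Ij m) := fun g =>
    if h : ∃ w, tW w (strt m) = g.1 then h.choose else []
  let n : ℕ := Finset.univ.sup fun g : NX m => bW (c g) (strt m)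
  have hn : ∀ g, bW (c g) (strt m) ≤ n := fun g =>
    Finset.le_sup (f := fun g : NX m => bW (c g) (strt m)) (Finset.mem_univ g)
  refine ⟨n, fun g => d ^ (bW (c g) f + (n - bW (c g) (strt m))) * F (tW (c g) f), fun w => ?_⟩
  set g : NX m := ⟨tW w (strt m), NC_tW w _ NC_strt⟩ with hg
  have h : ∃ v, tW v (strt m) = g.1 := ⟨w, rfl⟩
  have hc : c g = h.choose := dif_pos h
  obtain ⟨h1, h2⟩ := det (c g) w (by rw [hc]; exact h.choose_spec) f
  show d ^ bW w (strt m) * (d ^ (bW (c g) f + (n - bW (c g) (strt m))) * F (tW (c g) f)) = _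
  rw [h2, ← mul_assoc, Pi.smul_apply, smul_eq_mul, ← mul_assoc, ← pow_add, ← pow_add]
  congr 2
  have := hn g
  omega

theorem PP.zero' {m : ℕ} [IsDomain K] (d : K) (hd : d ≠ 0) {Z : Module.End K (Mt m → K)}
    (h : PP d Z (0 : Module.End K (NX m → K))) : Z = 0 := by
  apply LinearMap.ext
  intro F
  funext f
  obtain ⟨n, G, hG⟩ := exists_RR' d f F
  have h1 := h f _ G hG []
  simp only [bW, tW, pow_zero, one_mul] at h1
  have h2 : d ^ n * Z F f = 0 := by
    rw [map_smul] at h1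
    exact h1.symm
  rcases mul_eq_zero.1 h2 with h3 | h3
  · exact absurd h3 (pow_ne_zero _ hd)
  · exact h3

/-! ### triviality -/

section

variable [IsDomain K] {F : Type*} [Field F]

theorem sign_cancel (R : Type*) [CommRing R] (e : ℤ) (n : ℕ) (he : Even (e - (n : ℕ))) :
    (((-1) ^ e : Rˣ) : R) * (-1) ^ n = 1 := by
  have h7 : ((-1 : Rˣ) ^ e) * (-1) ^ ((n : ℕ) : ℤ) = 1 := by
    rw [← zpow_add]
    apply Even.neg_one_zpow
    have : e + ((n : ℕ) : ℤ) = (e - ((n : ℕ) : ℤ)) + 2 * ((n : ℕ) : ℤ) := by ring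
    rw [this]
    exact he.add (even_two_mul _)
  have h8 := congrArg Units.val h7
  rw [zpow_natCast, Units.val_mul, Units.val_pow_eq_pow_val, Units.val_neg, Units.val_one]
    at h8
  exact h8

omit [IsDomain K] in
theorem eta_val (φ : K →+* F) (a : Kˣ) (ha : Units.map (φ : K →* F) a = 1) (e : ℤ) :
    φ ((eta a ^ e : Kˣ) : K) = (((-1) ^ e : Fˣ) : F) := by
  have h5 : Units.map (φ : K →* F) (eta a ^ e) = (-1) ^ e := by
    rw [map_zpow, eta_map, ha, eta_one]
  exact congrArg Units.val h5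

/-- an operator which is trivial modulo `x` -/
theorem trivial_of {ι : Type*} (φ : K →+* F) (x : K) (hx : x ≠ 0)
    (hφ : ∀ y, φ y = 0 → x ∣ y) (N : Module.End K (ι → K))
    (hN : ∀ (v : ι → K) (f : ι), φ (N v f - v f) = 0) :
    ∃ B : Module.End K (ι → K), N = 1 + x • B := by
  have key : ∀ (v : ι → K) (f : ι), ∃ y, N v f - v f = x * y := fun v f => hφ _ (hN v f)
  choose b hb using key
  have hb' : ∀ v f, x * b v f = N v f - v f := fun v f => (hb v f).symm
  refine ⟨{ toFun := b, map_add' := ?_, map_smul' := ?_ }, ?_⟩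
  · intro v v'
    funext f
    apply mul_left_cancel₀ hx
    rw [Pi.add_apply, mul_add, hb', hb', hb', map_add, Pi.add_apply, Pi.add_apply]
    ring
  · intro c v
    funext f
    apply mul_left_cancel₀ hx
    rw [RingHom.id_apply, Pi.smul_apply, smul_eq_mul, mul_left_comm, hb', hb', map_smul,
      Pi.smul_apply, Pi.smul_apply, smul_eq_mul, smul_eq_mul]
    ring
  · apply LinearMap.ext
    intro v
    funext f
    show N v f = v f + x * b v f
    rw [hb']
    ring

theorem ann_x {m : ℕ} (φ : K →+* F) (x : K) (hx : x ≠ 0) (hφ : ∀ y, φ y = 0 → x ∣ y)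
    (a : Kˣ) (ha : Units.map (φ : K →* F) a = 1) (hd : dd a ≠ 0)
    (w : Word) (P : ℕ) (hP : wperm m w ^ P = 1) (e : ℤ)
    (he : Even (e - ((idx m w).length * P : ℕ))) :
    ∃ (B : Module.End K (Mt m → K)) (R : K[X]),
      (sU (eta a ^ e) * WUm a w ^ P : (Module.End K (Mt m → K))ˣ).1 = 1 + x • B ∧
        R.Monic ∧ R.natDegree ≤ m.choose (m / 2) ∧ aeval B R = 0 := by
  obtain ⟨B, hB⟩ := trivial_of φ x hx hφ
    (sU (eta a ^ e) * WUm a w ^ P : (Module.End K (Mt m → K))ˣ).1 (by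
    intro v f
    have h2 := congrFun (WUm_pow_map (m := m) φ a w P v) f
    rw [ha, WUm_pow_one w P hP, mom_pow_apply, Pi.smul_apply, smul_eq_mul] at h2
    have h3 : (sU (eta a ^ e) * WUm a w ^ P : (Module.End K (Mt m → K))ˣ).1 v f =
      ((eta a ^ e : Kˣ) : K) * (WUm a w ^ P : (Module.End K (Mt m → K))ˣ).1 v f := rfl
    rw [map_sub, h3, map_mul, eta_val φ a ha, h2, ← mul_assoc, sign_cancel F e _ he, one_mul,
      sub_self])
  obtain ⟨B', hB'⟩ := trivial_of φ x hx hφ
    (sU (eta a ^ e) * Q99.SML2.WU a w ^ P : (Module.End K (NX m → K))ˣ).1 (by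
    intro v f
    have h2 := congrFun (WU_pow_map (m := m) φ a w P v) f
    rw [ha, WU_pow_one w P hP, mo_pow_apply, Pi.smul_apply, smul_eq_mul] at h2
    have h3 : (sU (eta a ^ e) * Q99.SML2.WU a w ^ P : (Module.End K (NX m → K))ˣ).1 v f =
      ((eta a ^ e : Kˣ) : K) * (Q99.SML2.WU a w ^ P : (Module.End K (NX m → K))ˣ).1 v f := rfl
    rw [map_sub, h3, map_mul, eta_val φ a ha, h2, ← mul_assoc, sign_cancel F e _ he, one_mul,
      sub_self])
  have hcell : Cellular (sU (eta a ^ e) * Q99.SML2.WU a w ^ P :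
      (Module.End K (NX m → K))ˣ).1 := by
    show Cellular ((sU (eta a ^ e) : (Module.End K (NX m → K))ˣ).1 *
      (Q99.SML2.WU a w ^ P : (Module.End K (NX m → K))ˣ).1)
    rw [Units.val_pow_eq_pow_val]
    exact (Cellular.one.smul _).mul ((WU_cellular a w).pow P)
  obtain ⟨R, h1, h2, h3⟩ := (hcell.div x hx hB').ann
  refine ⟨B, R, hB, h1, h2, ?_⟩
  have hPP : PP (m := m) (dd a) (sU (eta a ^ e) * WUm a w ^ P :
      (Module.End K (Mt m → K))ˣ).1 (sU (eta a ^ e) * Q99.SML2.WU a w ^ P :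
      (Module.End K (NX m → K))ˣ).1 := by
    show PP (dd a) ((sU (eta a ^ e) : (Module.End K (Mt m → K))ˣ).1 *
      (WUm a w ^ P : (Module.End K (Mt m → K))ˣ).1)
      ((sU (eta a ^ e) : (Module.End K (NX m → K))ˣ).1 *
      (Q99.SML2.WU a w ^ P : (Module.End K (NX m → K))ˣ).1)
    rw [Units.val_pow_eq_pow_val, Units.val_pow_eq_pow_val]
    exact ((PP.one _).smul _).mul ((WU_PP a w).pow P)
  have h9 := (hPP.div x hx hB hB').poly R
  rw [h3] at h9
  exact PP.zero' _ hd h9

theorem member_rec {m k : ℕ} (hm : 0 < m) (φ : K →+* F) (x : K) (hx : x ≠ 0)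
    (hφ : ∀ y, φ y = 0 → x ∣ y)
    (a : Kˣ) (ha : Units.map (φ : K →* F) a = 1) (hd : dd a ≠ 0) (O : Outer m) (w : Fin k → Word)
    (u : Fin k → VWord) (P : ℕ) (n : Fin k → ℤ) (j : Fin k) (hP : wperm m (w j) ^ P = 1)
    (s : ℤ) : IRecD x (m.choose (m / 2))
      (fun t : ℤ => spec a (familyV O w u (Function.update n j (s + P * t))).close.fPoly) := by
  obtain ⟨O', y, hy⟩ := familyV_update m k w u n j O
  obtain ⟨e, l, v, he, hval⟩ := Q99.SML3.value hm a O' (w j) y P hP s
  obtain ⟨B, R, hB, h1, h2, h3⟩ := ann_x φ x hx hφ a ha hd (w j) P hP e he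
  refine ⟨R, h1, h2, ?_⟩
  have h4 := IRec.of_end _ B hB R h3 l v
  have h5 : (fun t : ℤ => spec a (familyV O w u (Function.update n j (s + P * t))).close.fPoly) =
      fun t : ℤ => l (((sU (eta a ^ e) * WUm a (w j) ^ P) ^ t :
        (Module.End K (Mt m → K))ˣ).1 v) := by
    funext t
    rw [hy, hval]
  rw [h5]
  exact h4

end

end Q99.SML8
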